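import Pool.Agent.BEN.StmtsB

/-!
# Squad BEN (MP_be01ff_an): row FNG (finitely many resonances, from FNN)
-/

namespace Pool.Agent.BEN.H98

open Set Filter Topology MeasureTheory
open scoped InnerProductSpace ENNReal
open Pool.Agent.BE01 Pool.Agent.BEL Pool.Agent.BEF Pool.Agent.BEH

noncomputable section

/-- row FNG -/
theorem fng (fnn : Pool.Agent.BEN.FnnStmt) : Pool.Agent.BEN.FngStmt := by
  intro d Ω p a l φ hd hDom hp ha hφ hEig hfin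
  set T : Set ℕ := {n : ℕ | Odd n ∧ ∃ u : Lp ℝ 2 (mu Ω), u ≠ 0 ∧ IsEig Ω ((n : ℝ) ^ 2 * l) u}
    with hT
  have h1 : 1 ∈ T := by
    refine ⟨odd_one, φ, hφ, ?_⟩
    rw [Nat.cast_one, one_pow, one_mul]
    exact hEig
  obtain ⟨n0, hn0, hmax⟩ := hfin.exists_maximal ⟨1, h1⟩
  obtain ⟨hodd, u0, hu0, hE0⟩ := hn0
  obtain ⟨M, hM⟩ := fnn d Ω p ((n0 : ℝ) ^ 2 * l) u0 hd hDom hp hu0 hE0
  refine hM (fun n hn h3 _ u hu => ?_) a ha
  by_contra hne
  have hpos : 0 < n0 := hodd.pos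
  have hmem : n * n0 ∈ T := by
    refine ⟨hn.mul hodd, u, hne, ?_⟩
    have e : (((n * n0 : ℕ) : ℝ)) ^ 2 * l = (n : ℝ) ^ 2 * ((n0 : ℝ) ^ 2 * l) := by
      push_cast
      ring
    rw [e]
    exact hu
  have hle : n0 ≤ n * n0 := Nat.le_mul_of_pos_left n0 (by omega)
  have h4 := hmax hmem hle
  have h5 : n * n0 ≤ n0 := h4
  nlinarith

end

end Pool.Agent.BEN.H98
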